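import Pool.Agent.MP_fbbd83_al.Lc.Two

attribute [-instance] Fintype.decidableForallFintype IdemSemiring.toCanonicallyOrderedAdd
  AddQuantale.instAddLeftMono NumberField.to_charZero RKHS.instFunLike
  covariant_swap_mul_of_covariant_mul instCoeHTCTOfCoeHTC AddQuantale.instAddRightMono
  CompletePartialOrder.toPartialOrder Finset.decidableDforallFinset IsOrderedMonoid.toMulLeftMono
  Multiset.decidableDforallMultiset Vector.instDecidableForallForallMemOfDecidablePred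
  Int.decidableLTLE Quantale.instMulLeftMono Quantale.instMulRightMono
  Array.instDecidableForallForallMemOfDecidablePred IdemSemiring.toMulLeftMono
  Option.decidableForallMem

-- part MP_fbbd83_al.Lc.Stage
section

/-! Stages with a variable spreading parameter. -/

namespace Pool.Agent.MP_fbbd83_al.Lc

open Pl Pl.RT St

variable {ω : ℕ → Fin 3}

def Stage (ph : Ph ω) (i : ℕ) (t : RT Lf) (c : ℕ) (a s : ℝ) : Prop :=
  Inv ω ph.z ph.b (ph.P + 1) ph.U t (2 ^ i) c ((1 + a + 2 * s) * 2 ^ i / 2 ^ ph.hb) (4 + a)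
    (a * 2 ^ i) (s * 2 ^ i)

theorem stage_zero (ph : Ph ω) (h1 : ph.b = 0) (h2 : ph.hb = 0) (h3 : ph.U = fun _ => True) :
    ∃ t, Stage ph 0 t 1 0 0 := by
  have hz := ph.run 0 (by omega)
  rw [add_zero] at hz
  obtain ⟨t, ht⟩ := inv_zero hz
  refine ⟨t, ?_⟩
  unfold Stage
  rw [h1, h2, h3]
  simpa using ht

theorem stage_step (ph : Ph ω) {Λ i c : ℕ} {a s : ℝ} (hP : i + (7 * Λ + 4) ≤ ph.P) (a0 : 0 ≤ a)
    (s0 : 0 ≤ s) (ha : a + 2 * s ≤ 1) {t : RT Lf} (h : Stage ph i t c a s) :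
    ∃ t', Stage ph (i + 1) t' (2 * c + 6 * lenSum ω (i + (7 * Λ + 4))) (a + 240 * (1 / 2) ^ Λ) s := by
  have b1 := ph.hb1; have b2 := ph.hb2; have b3 := ph.hbP
  have hz := ph.run 0 (by omega)
  rw [add_zero] at hz
  obtain ⟨m, hm⟩ : ∃ m, m = max ph.b (i - Λ) := ⟨_, rfl⟩
  obtain ⟨G, hG⟩ : ∃ G, G = i + Λ + 1 - m := ⟨_, rfl⟩
  obtain ⟨κ, hκ⟩ : ∃ κ : ℝ, (m = ph.b ∧ κ = 0) ∨ (i = Λ + m ∧ κ = 1) := by
    by_cases e : m = ph.b
    · exact ⟨0, Or.inl ⟨e, rfl⟩⟩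
    · exact ⟨1, Or.inr ⟨by omega, rfl⟩⟩
  obtain ⟨gs, g1, g2, g3⟩ := good_levels (ω := ω) (z := ph.z) (m := m) (P := ph.P)
    (fun t h1 h2 => ph.win t (by omega) h2) G (by omega)
  obtain ⟨t', h'⟩ := double (m := m) (κ := κ) (cK := lenSum ω (i + (7 * Λ + 4) + 1)) hz gs g1 g2
    (fun n hn => by have := g3 n hn; exact ⟨by omega, by omega, Or.inr this.2.2⟩)
    (jumps_cost ph.z gs (fun _ => ph.z) g2 (N := i + (7 * Λ + 4) + 1) fun n hn => by
      have := g3 n hn; omega) (by omega) (by omega)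
    (hκ.imp id fun e => ⟨lenSum_mono ω (by omega), e.2⟩) h
  refine ⟨t', ?_⟩
  unfold Stage
  rw [pow_succ' 2 i]
  clear h g3
  generalize ph.b = b at *
  set η : ℝ := (1 / 2) ^ Λ with hη
  have η0 : 0 < η := by positivity
  have κ0 : 0 ≤ κ := by rcases hκ with ⟨_, e⟩ | ⟨_, e⟩ <;> simp [e]
  have fA : κ * 2 ^ m ≤ η * 2 ^ i := by
    rcases hκ with ⟨_, e⟩ | ⟨e', e⟩
    · rw [e, zero_mul]; positivity
    · rw [e, e', pow_add, hη, ← mul_assoc, ← mul_pow]; norm_num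
  have fB : (1 / 2) ^ G * κ ≤ η := by
    rcases hκ with ⟨_, e⟩ | ⟨e', e⟩
    · rw [e, mul_zero]; positivity
    · rw [e, mul_one]; exact pow_le_pow_of_le_one (by norm_num) (by norm_num) (by omega)
  have fC : (1 / 2) ^ (G + (m - b)) * (2 ^ i / 2 ^ ph.hb) ≤ η := by
    have : (1 / 2 : ℝ) ^ (G + (m - b) + ph.hb) ≤ (1 / 2) ^ (Λ + i) :=
      pow_le_pow_of_le_one (by norm_num) (by norm_num) (by omega)
    calc _ = (1 / 2 : ℝ) ^ (G + (m - b) + ph.hb) * 2 ^ i := by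
          rw [pow_add _ _ ph.hb, one_div, inv_pow 2 ph.hb]; ring
      _ ≤ (1 / 2) ^ (Λ + i) * 2 ^ i := mul_le_mul_of_nonneg_right this (by positivity)
      _ = η := by rw [pow_add, mul_assoc, ← mul_pow]; norm_num [hη]
  have fE : (2 : ℝ) ^ (m - b) * 2 ^ ph.hb ≤ 2 ^ m := by
    rw [← pow_add]; exact pow_le_pow_right₀ (by norm_num) (by omega)
  have fF : (2 : ℝ) ^ b ≤ 2 ^ ph.hb * 2 := by
    rw [← pow_succ]; exact pow_le_pow_right₀ (by norm_num) b2
  have p1 : (0 : ℝ) < 2 ^ i := by positivity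
  have p2 : (0 : ℝ) < 2 ^ ph.hb := by positivity
  have γ2 : 1 + a + 2 * s ≤ 2 := by linarith only [ha]
  have hτ : (1 / 2) ^ G * (2 * κ) + (1 / 2) ^ (G + (m - b)) *
      (2 * ((1 + a + 2 * s) * 2 ^ i / 2 ^ ph.hb)) ≤ 6 * η := by
    have := mul_le_mul γ2 fC (by positivity) (by norm_num)
    have e : (1 / 2 : ℝ) ^ (G + (m - b)) * (2 * ((1 + a + 2 * s) * 2 ^ i / 2 ^ ph.hb)) =
      2 * ((1 + a + 2 * s) * ((1 / 2) ^ (G + (m - b)) * (2 ^ i / 2 ^ ph.hb))) := by ring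
    linarith only [fB, this, e]
  have hμ : 2 ^ b * ((1 + a + 2 * s) * 2 ^ i / 2 ^ ph.hb) ≤ 4 * 2 ^ i := by
    rw [← mul_div_assoc, div_le_iff₀ p2]
    have := mul_le_mul fF (mul_le_mul_of_nonneg_right γ2 p1.le) (by positivity) (by positivity)
    linarith only [this]
  refine h'.mono (by have := lenSum_three ω (i + (7 * Λ + 4)); omega) ?_ (by linarith only [η0, hτ]) ?_
    (le_of_eq (by ring))
  · have e1 : κ * 2 ^ (m - b) ≤ η * 2 ^ i / 2 ^ ph.hb := by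
      rw [le_div_iff₀ p2, mul_assoc]
      exact (mul_le_mul_of_nonneg_left fE κ0).trans fA
    have e2 : (1 + (a + 240 * η) + 2 * s) * 2 ^ (i + 1) / 2 ^ ph.hb =
      2 * ((1 + a + 2 * s) * 2 ^ i / 2 ^ ph.hb) + 480 * (η * 2 ^ i / 2 ^ ph.hb) := by ring
    have e3 : 0 ≤ η * 2 ^ i / 2 ^ ph.hb := by positivity
    linarith only [e1, e2, e3]
  · have a2 := mul_le_mul_of_nonneg_left (show 4 + a ≤ 5 by linarith only [s0, ha])
      (show 0 ≤ κ * 2 ^ m by positivity)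
    have a3 := mul_le_mul hμ hτ (by positivity) (by positivity)
    have a5 : 0 ≤ η * 2 ^ i := by positivity
    rw [pow_succ 2 i]
    linarith only [fA, a2, a3, a5]

theorem stage_conv (ph ph' : Ph ω) {i c j : ℕ} {a s : ℝ} (hc : Cheap ph) (a0 : 0 ≤ a)
    (ha : 3 * a + 2 * s ≤ 1) (hP : i ≤ ph.P + 1) (hj : 6 ≤ j)
    (e1 : ph'.P = ph.P + 1 + 1 + j) (e2 : ph'.b = ph.P + 1 + 1) (e3 : ph'.hb = ph.P + 1)
    (e4 : ph'.z ≠ ph.z) (e5 : ∀ u : Vx, u.length = ph.P + 1 → ∃ δ, ph'.U (u ++ [δ]))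
    {t : RT Lf} (h : Stage ph i t c a s) :
    ∃ t', Stage ph' i t' (2 * c + 16 * lenSum ω ph.P) a (s + a) := by
  have hx := ph'.run 0 (by omega)
  rw [add_zero, e1] at hx
  obtain ⟨t', h'⟩ := Pl.convert (ph.hbP.trans (Nat.le_succ _)) (ph.run 0 (by omega))
    (ph.run 1 (by omega)) hx e4 hj ph.probe hc e5 ph.card h
  refine ⟨t', ?_⟩
  unfold Stage
  rw [e1, e2, e3]
  have p1 : (0 : ℝ) < 2 ^ i := by positivity
  have a3 : (1 / 2 : ℝ) ^ (ph.P + 1) * (((2 ^ ph.hb : ℕ) : ℝ) *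
      ((1 + a + 2 * s) * 2 ^ i / 2 ^ ph.hb) + 2 * (a * 2 ^ i)) =
      (1 + a + 2 * (s + a)) * 2 ^ i / 2 ^ (ph.P + 1) := by
    push_cast
    rw [mul_div_cancel₀ _ (by positivity), one_div, inv_pow, ← div_eq_inv_mul]
    ring
  rw [a3] at h'
  refine h'.mono ?_ le_rfl ?_ le_rfl (le_of_eq (by ring))
  · have := lenSum_three ω ph.P
    omega
  · have a4 : (2 : ℝ) ^ i ≤ 2 ^ (ph.P + 1) := pow_le_pow_right₀ (by norm_num) hP
    have a5 : (1 + a + 2 * (s + a)) * 2 ^ i / 2 ^ (ph.P + 1) ≤ 2 := by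
      rw [div_le_iff₀ (by positivity)]
      exact mul_le_mul (by linarith only [ha]) a4 p1.le (by norm_num)
    linarith only [a0, a5]

end Pool.Agent.MP_fbbd83_al.Lc

end

-- part MP_fbbd83_al.Lc.Loc
section

/-! The lower bound with a loss that depends on the growth of the normalised lengths. -/

namespace Pool.Agent.MP_fbbd83_al.Lc

open Pl Pl.RT St Finset

variable {ω : ℕ → Fin 3}

noncomputable def rt (x : ℝ) : ℝ := x ^ (1 / 260 : ℝ)

theorem rt_nonneg {x : ℝ} (h : 0 ≤ x) : 0 ≤ rt x := Real.rpow_nonneg h _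

theorem rt_pow {x : ℝ} (h : 0 ≤ x) : rt x ^ 260 = x := by
  unfold rt
  rw [← Real.rpow_natCast, ← Real.rpow_mul h]; norm_num

theorem mix {t ρ v : ℝ} (ht : 0 ≤ t) (hρ : 0 ≤ ρ) (hv : 0 ≤ v) (h1 : t ≤ ρ ^ 260)
    (h2 : t ≤ v ^ 13) : t ≤ ρ ^ 240 * v := by
  have e1 : ρ ^ 260 = (ρ ^ 20) ^ 13 := by rw [← pow_mul]
  have e2 : ρ ^ 240 = (ρ ^ 20) ^ 12 := by rw [← pow_mul]
  have h3 := pow_nonneg hρ 20
  rw [e1] at h1
  rw [e2]
  generalize ρ ^ 20 = x at *
  refine le_of_pow_le_pow_left₀ (n := 13) (by norm_num) (by positivity) ?_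
  calc t ^ 13 = t ^ 12 * t := by ring
    _ ≤ (x ^ 13) ^ 12 * v ^ 13 := mul_le_mul (pow_le_pow_left₀ ht h1 12) h2 ht (by positivity)
    _ = _ := by ring

theorem gn_three (t d : ℕ) : gn ω (t + d) ≤ (3 / 2) ^ d * gn ω t := by
  have : (lenSum ω (t + d) : ℝ) ≤ 3 ^ d * lenSum ω t := by exact_mod_cast lenSum_three_pow ω t d
  unfold gn
  rw [div_pow, div_mul_div_comm, ← pow_add, add_comm d]
  exact div_le_div_of_nonneg_right this (by positivity)

theorem lenSum_gn (t : ℕ) : (lenSum ω t : ℝ) = 2 ^ t * gn ω t := by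
  unfold gn; field_simp

noncomputable def pot (G : ℝ) (ph : Ph ω) : ℝ :=
  rt (min (Psi ω ph.P ph.z / 2 ^ ph.P : ℝ) (7 * G) / G)

variable {G : ℝ}

theorem pot_nonneg (hG : 0 < G) (ph : Ph ω) : 0 ≤ pot G ph := rt_nonneg (by positivity)

theorem pot_pow (hG : 0 < G) (ph : Ph ω) :
    pot G ph ^ 260 = min (Psi ω ph.P ph.z / 2 ^ ph.P : ℝ) (7 * G) / G := rt_pow (by positivity)

theorem psi_gn (P : ℕ) (z : Fin 3) :
    gn ω P ≤ Psi ω P z / 2 ^ P ∧ Psi ω P z / 2 ^ P ≤ 3 * gn ω P := by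
  obtain ⟨h1, h2⟩ := Psi_bounds ω P z
  unfold gn
  rw [← mul_div_assoc]
  exact ⟨div_le_div_of_nonneg_right (by exact_mod_cast h1) (by positivity),
    div_le_div_of_nonneg_right (by exact_mod_cast h2) (by positivity)⟩

theorem pot_ge (hG : 0 < G) (ph : Ph ω) {e : ℕ} (h1 : e ≤ ph.P) (h2 : gn ω e ≤ G) :
    gn ω e / G ≤ pot G ph ^ 260 := by
  rw [pot_pow hG]
  exact div_le_div_of_nonneg_right (le_min ((gn_mono h1).trans (psi_gn _ _).1) (by linarith only [hG, h2])) hG.le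

theorem pot_le (hG : 0 < G) (ph : Ph ω) : pot G ph ≤ 2 ∧ pot G ph ^ 240 ≤ 7 := by
  have h : pot G ph ^ 260 ≤ 7 := by
    rw [pot_pow hG, div_le_iff₀ hG]; exact min_le_right _ _
  refine ⟨le_of_pow_le_pow_left₀ (n := 260) (by norm_num) (by norm_num) (h.trans ?_), ?_⟩
  · exact le_trans (by norm_num) (pow_le_pow_right₀ (by norm_num) (show 3 ≤ 260 by norm_num))
  rcases le_total 1 (pot G ph) with h1 | h1
  · exact (pow_le_pow_right₀ h1 (by norm_num)).trans h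
  · exact (pow_le_one₀ (pot_nonneg hG ph) h1).trans (by norm_num)

theorem pot_grow (hG : 0 < G) {ph ph' : Ph ω} {j : ℕ} (h1 : gn ω ph.P ≤ G)
    (e1 : ph'.P = ph.P + 1 + 1 + j)
    (h2 : 17 * (2 ^ (j + 2) * Psi ω ph.P ph.z) ≤ 8 * Psi ω ph'.P ph'.z) :
    10029 / 10000 * pot G ph ≤ pot G ph' := by
  refine le_of_pow_le_pow_left₀ (n := 260) (by norm_num) (pot_nonneg hG _) ?_
  have a1 : (10029 / 10000 : ℝ) ^ 260 ≤ 17 / 8 := by
    rw [show 260 = 130 * 2 from rfl, pow_mul]; norm_num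
  have a2 := (psi_gn (ω := ω) ph.P ph.z).2
  have a3 : (17 : ℝ) * (2 ^ (j + 2) * Psi ω ph.P ph.z) ≤ 8 * Psi ω ph'.P ph'.z := by
    exact_mod_cast h2
  have a4 : 17 / 8 * (Psi ω ph.P ph.z / 2 ^ ph.P : ℝ) ≤ Psi ω ph'.P ph'.z / 2 ^ ph'.P := by
    have e : (2 : ℝ) ^ ph'.P = 2 ^ ph.P * 2 ^ (j + 2) := by rw [e1, ← pow_add]; congr 1; ring
    rw [e, ← mul_div_assoc, div_le_div_iff₀ (by positivity) (by positivity)]
    have := mul_le_mul_of_nonneg_right a3 (show (0 : ℝ) ≤ 2 ^ ph.P by positivity)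
    linarith only [this]
  rw [mul_pow, pot_pow hG, pot_pow hG]
  refine (mul_le_mul_of_nonneg_right a1 (by positivity)).trans ?_
  rw [← mul_div_assoc]
  refine div_le_div_of_nonneg_right ?_ hG.le
  have a5 := min_le_left (Psi ω ph.P ph.z / 2 ^ ph.P : ℝ) (7 * G)
  exact le_min (by linarith only [a4, a5]) (by linarith only [hG, h1, a2, a5])

noncomputable def pv (G : ℝ) (ph : Ph ω) : ℝ := G * pot G ph ^ 240

theorem pv_bd (hG : 0 < G) (ph : Ph ω) : 0 ≤ pv G ph ∧ pv G ph ≤ G * 7 :=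
  ⟨mul_nonneg hG.le (pow_nonneg (pot_nonneg hG ph) _),
    mul_le_mul_of_nonneg_left (pot_le hG ph).2 hG.le⟩

theorem pv_grow (hG : 0 < G) {ph ph' : Ph ω} (h : 10029 / 10000 * pot G ph ≤ pot G ph') :
    2003 / 1000 * pv G ph ≤ pv G ph' := by
  have h0 := pot_nonneg hG ph
  have a1 := pow_le_pow_left₀ (mul_nonneg (by norm_num) h0) h 240
  have a2 : (2003 / 1000 : ℝ) ≤ (10029 / 10000) ^ 240 := by norm_num
  rw [mul_pow] at a1
  have a3 := (mul_le_mul_of_nonneg_right a2 (pow_nonneg h0 240)).trans a1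
  unfold pv
  rw [mul_left_comm]
  exact mul_le_mul_of_nonneg_left a3 hG.le

theorem choose_q {K Λ i : ℕ} (hi : i ≤ K) (hG : G = (3 / 2) ^ (7 * Λ + 4) * gn ω K) {u : ℝ}
    (hu : u = rt (gn ω i / gn ω K)) : ∃ q : ℕ, 7 * q + i ≤ K ∧ (1 / 2) ^ q ≤ 2 * u ^ 2 ∧
      ∀ (ph : Ph ω) (e : ℕ), e ≤ i + (7 * (Λ + q) + 4) → e ≤ ph.P →
        gn ω e ≤ G ∧ 2 ^ (7 * q) * gn ω e ≤ pv G ph * u := by
  have g0 : ∀ t, 0 < gn ω t := fun t => by have := gn_pos (ω := ω) t; linarith only [this]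
  have G0 : 0 < G := by rw [hG]; have := g0 K; positivity
  have u1 : u ^ 260 = gn ω i / gn ω K := by rw [hu]; exact rt_pow (div_pos (g0 i) (g0 K)).le
  have u0 : 0 < u := by rw [hu]; exact Real.rpow_pos_of_pos (div_pos (g0 i) (g0 K)) _
  have u2 : u ≤ 1 := by
    refine le_of_pow_le_pow_left₀ (n := 260) (by norm_num) (by norm_num) ?_
    rw [u1, one_pow, div_le_one (g0 K)]; exact gn_mono hi
  obtain ⟨q, q1, q2⟩ := exists_nat_pow_near (x := (u ^ 2)⁻¹) (y := 2)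
    (one_le_inv₀ (by positivity) |>.2 (pow_le_one₀ u0.le u2)) (by norm_num)
  have q3 : 2 ^ q * u ^ 2 ≤ 1 := by
    rwa [← one_div, le_div_iff₀ (by positivity)] at q1
  have q4 : 7 * q + i ≤ K := by
    obtain ⟨d, rfl⟩ := Nat.exists_eq_add_of_le hi
    have a1 := pow_le_one₀ (n := 130) (by positivity) q3
    rw [mul_pow, ← pow_mul, ← pow_mul, show 2 * 130 = 260 from rfl, u1, ← mul_div_assoc,
      div_le_one (g0 _)] at a1
    have a2 := a1.trans ((gn_three i d).trans (mul_le_mul_of_nonneg_right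
      (pow_le_pow_left₀ (by norm_num) (show (3 / 2 : ℝ) ≤ 2 by norm_num) d) (g0 i).le))
    have a3 := (pow_le_pow_iff_right₀ (by norm_num)).1 (le_of_mul_le_mul_right a2 (g0 i))
    omega
  refine ⟨q, q4, ?_, fun ph e h1 h2 => ?_⟩
  · rw [← one_div, div_lt_iff₀ (by positivity), pow_succ] at q2
    rw [one_div, inv_pow, ← one_div, div_le_iff₀ (by positivity)]
    linarith only [q2]
  have a1 : gn ω e ≤ G := by
    rw [hG]; exact (gn_mono (by omega)).trans (gn_three K _)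
  refine ⟨a1, ?_⟩
  have a2 : gn ω e / G ≤ (2 ^ q * u ^ 20) ^ 13 := by
    have b1 := (gn_mono h1).trans (gn_three (ω := ω) i _)
    have b2 : (3 / 2 : ℝ) ^ (7 * q) ≤ (2 ^ q) ^ 13 := by
      rw [pow_mul, ← pow_mul 2, mul_comm q, pow_mul]
      exact pow_le_pow_left₀ (by norm_num) (by norm_num) q
    rw [mul_pow, ← pow_mul u, show 20 * 13 = 260 from rfl, u1, div_le_iff₀ G0, hG]
    refine b1.trans ?_
    rw [show 7 * (Λ + q) + 4 = 7 * q + (7 * Λ + 4) by ring, pow_add]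
    have := g0 i; have := g0 K
    calc _ ≤ (2 ^ q) ^ 13 * (3 / 2) ^ (7 * Λ + 4) * gn ω i := by gcongr
      _ = _ := by field_simp
  have ρ0 := pot_nonneg G0 ph
  have a3 := mix (div_pos (g0 e) G0).le ρ0 (by positivity) (pot_ge G0 ph h2 a1) a2
  rw [div_le_iff₀ G0] at a3
  have a4 : (2 ^ q * u ^ 2) ^ 8 * u ^ 3 ≤ 1 :=
    mul_le_one₀ (pow_le_one₀ (by positivity) q3) (by positivity) (pow_le_one₀ u0.le u2)
  have r0 := pow_nonneg ρ0 240
  unfold pv
  generalize pot G ph ^ 240 = r at *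
  calc _ ≤ 2 ^ (7 * q) * (r * (2 ^ q * u ^ 20) * G) := by gcongr
    _ = G * r * u * ((2 ^ q * u ^ 2) ^ 8 * u ^ 3) := by ring
    _ ≤ _ := mul_le_of_le_one_right (by positivity) a4

theorem main (hR : Rich ω) {K Λ : ℕ} {S D β N : ℝ} (hG : G = (3 / 2) ^ (7 * Λ + 4) * gn ω K)
    (hN : N = 2 ^ (7 * Λ + 4)) (D0 : 0 ≤ D) (hD : (3 / 2) ^ (7 * Λ + 4) ≤ D ^ 260)
    (hβ : 480 * (1 / 2) ^ Λ * D ≤ β) (hS : β * S ≤ 1 / 12000) {W : ℕ → ℝ}
    (hW : W = fun i => ∑ j ∈ range i, rt (gn ω j / gn ω K)) (hWS : W K ≤ S) (n : ℕ) :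
    ∀ (ph : Ph ω) (i c : ℕ) (t : RT Lf) (a s : ℝ), Cheap ph →
      K - i + (K + (7 * Λ + 4) - ph.P) ≤ n → i ≤ K → i ≤ ph.P → Stage ph i t c a s → 0 ≤ a → 0 ≤ s →
      c ≤ 6000 * N * (1 + W i) * pv G ph * 2 ^ i → a ≤ β * W i * pot G ph →
      s ≤ pot G ph / 32 → ∃ c : ℕ, (c : ℝ) ≤ 6000 * N * (1 + S) * (G * 7) * 2 ^ K ∧
        Real.exp (2 ^ K / 4) ≤ growth (gens ω) c := by
  have g0 : ∀ t, 0 < gn ω t := fun t => by have := gn_pos (ω := ω) t; linarith only [this]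
  have G0 : 0 < G := by rw [hG]; have := g0 K; positivity
  have N0 : 0 < N := by rw [hN]; positivity
  have β0 : 0 ≤ β := le_trans (by positivity) hβ
  have u0 : ∀ j, 0 ≤ rt (gn ω j / gn ω K) := fun j => rt_nonneg (div_pos (g0 j) (g0 K)).le
  have W0 : ∀ i, 0 ≤ W i := fun i => by rw [hW]; exact sum_nonneg fun j _ => u0 j
  have W1 : ∀ i ≤ K, W i ≤ S := fun i hi => le_trans (by
    rw [hW]; exact sum_le_sum_of_subset_of_nonneg (range_mono hi) fun j _ _ => u0 j) hWS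
  have W2 : ∀ i, W (i + 1) = W i + rt (gn ω i / gn ω K) := fun i => by
    rw [hW]; exact sum_range_succ _ _
  have A1 : ∀ (ph : Ph ω), ∀ i ≤ K, β * W i * pot G ph ≤ pot G ph / 12000 := fun ph i hi => by
    have := mul_le_mul_of_nonneg_right ((mul_le_mul_of_nonneg_left (W1 i hi) β0).trans hS)
      (pot_nonneg G0 ph)
    linarith only [this]
  have A2 : ∀ (ph : Ph ω) (i : ℕ), i ≤ ph.P → gn ω i ≤ G →
      rt (gn ω i / gn ω K) ≤ D * pot G ph := fun ph i h1 h2 => by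
    refine le_of_pow_le_pow_left₀ (n := 260) (by norm_num) (mul_nonneg D0 (pot_nonneg G0 ph)) ?_
    rw [rt_pow (div_pos (g0 i) (g0 K)).le, mul_pow]
    refine le_trans (le_of_eq ?_)
      (mul_le_mul hD (pot_ge G0 ph h1 h2) (div_pos (g0 i) G0).le (pow_nonneg D0 _))
    rw [hG]; have := g0 K; field_simp
  have A3 : ∀ i ≤ K, rt (gn ω i / gn ω K) ≤ 1 := fun i hi =>
    Real.rpow_le_one (div_pos (g0 i) (g0 K)).le ((div_le_one (g0 K)).2 (gn_mono hi)) (by norm_num)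
  clear hD hW hWS hS
  induction n using Nat.strong_induction_on with
  | _ n ih =>
  intro ph i c t a s hc hn hi hP h a0 s0 h1 h2 h3
  obtain ⟨ρ1, -⟩ := pot_le G0 ph
  obtain ⟨r0, r1⟩ := pv_bd G0 ph
  have ρ0 := pot_nonneg G0 ph
  have a1 := h2.trans (A1 ph i hi)
  have p1 : (0 : ℝ) < 2 ^ i := by positivity
  have w0 := W0 i
  rcases hi.eq_or_lt with rfl | hi'
  · have w1 := W1 i le_rfl
    have w2 := w0.trans w1
    refine ⟨c, h1.trans (by gcongr), growth_of_inv h ?_⟩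
    have := mul_le_mul_of_nonneg_right (show a + s ≤ 1 / 8 by linarith only [h3, ρ1, a1]) p1.le
    linarith only [this]
  obtain ⟨q, q1, q2, q3⟩ := choose_q hi hG rfl
  have u1 := A2 ph i hP (q3 ph i (by omega) hP).1
  have u2 := u0 i
  have u3 := A3 i hi
  have w2 := W2 i
  generalize rt (gn ω i / gn ω K) = u at u1 u2 u3 w2 q2 q3
  have e0 : (2 : ℝ) ^ (i + (7 * (Λ + q) + 4)) = 2 ^ i * N * 2 ^ (7 * q) := by rw [hN]; ring
  have p2 : 0 ≤ 2 ^ i * N := by positivity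
  by_cases hs : i + (7 * (Λ + q) + 4) ≤ ph.P
  · obtain ⟨t', h'⟩ := stage_step ph hs a0 s0 (by linarith only [h3, ρ1, a1]) h
    obtain ⟨-, b1⟩ := q3 ph _ le_rfl hs
    refine ih _ (by omega) ph (i + 1) _ t' _ s hc le_rfl hi' (by omega) h' (by positivity) s0 ?_ ?_ h3
    · push_cast
      rw [lenSum_gn, w2, e0, pow_succ 2 i]
      have b2 := mul_le_mul_of_nonneg_left b1 p2
      have b3 : 0 ≤ 2 ^ i * N * (pv G ph * u) := by positivity
      linarith only [h1, b2, b3]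
    · have b3 := mul_le_mul_of_nonneg_left q2 (show (0 : ℝ) ≤ (1 / 2) ^ Λ by positivity)
      have b4 := mul_le_mul_of_nonneg_left u1 (show (0 : ℝ) ≤ (1 / 2) ^ Λ * u by positivity)
      have b5 := mul_le_mul_of_nonneg_right hβ (mul_nonneg u2 ρ0)
      rw [w2, pow_add]
      linarith only [h2, b3, b4, b5]
  · obtain ⟨ph', j, hj, e1, e2, e3, e4, e5, e6, e7⟩ := next_phase hR ph
    obtain ⟨t', h'⟩ := stage_conv ph ph' hc a0 (by linarith only [h3, ρ1, a1]) (by omega) hj e1 e2 e3 e4 e5 h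
    obtain ⟨b0, b1⟩ := q3 ph ph.P (by omega) le_rfl
    have c1 := pot_grow G0 b0 e1 e7
    refine ih _ (by omega) ph' i _ t' _ _ e6 le_rfl hi (by omega) h' a0 (by positivity) ?_
      (h2.trans (mul_le_mul_of_nonneg_left (by linarith only [s0, h3, c1]) (by positivity))) (by linarith only [s0, h3, a1, c1])
    have c4 : (2 : ℝ) ^ ph.P ≤ 2 ^ i * N * 2 ^ (7 * q) := by
      rw [← e0]; exact pow_le_pow_right₀ (by norm_num) (by omega)
    have c5 := mul_le_mul_of_nonneg_right c4 (g0 ph.P).le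
    have c6 := mul_le_mul_of_nonneg_left (b1.trans (mul_le_of_le_one_right r0 u3)) p2
    have c7 := mul_le_mul_of_nonneg_left (pv_grow G0 c1)
      (show 0 ≤ N * (1 + W i) * 2 ^ i by positivity)
    have c8 : 0 ≤ N * W i * pv G ph * 2 ^ i := by positivity
    have c9 : 0 ≤ N * pv G ph * 2 ^ i := by positivity
    push_cast
    rw [lenSum_gn]
    linarith only [h1, c5, c6, c7, c8]

theorem lower_rich (hR : Rich ω) {K c S : ℕ} (hW : ∑ j ∈ range K, rt (gn ω j / gn ω K) ≤ S)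
    (hS : 1 ≤ S) (hc : 2 ^ 24 * S ≤ 2 ^ (32 * c)) :
    Real.exp (2 ^ K / 4) ≤ growth (gens ω) (84000 * S * 3 ^ (7 * (33 * c) + 4) * lenSum ω K) := by
  obtain ⟨ph, h1, h2, h3, h4⟩ := first_phase hR
  obtain ⟨t, h5⟩ := stage_zero ph h1 h2 h3
  have g0 := gn_pos (ω := ω) 0
  have g1 := gn_mono (ω := ω) (Nat.zero_le K)
  obtain ⟨G, hG⟩ : ∃ G : ℝ, G = (3 / 2) ^ (7 * (33 * c) + 4) * gn ω K := ⟨_, rfl⟩
  have G1 : gn ω 0 ≤ G := by
    rw [hG]; exact g1.trans (le_mul_of_one_le_left (by linarith only [g0, g1]) (one_le_pow₀ (by norm_num)))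
  have G0 : 0 < G := by linarith only [g0, G1]
  obtain ⟨m, a1, a2⟩ := main hR hG rfl (D := 2 ^ (c + 1)) (β := 960 * (1 / 2) ^ (32 * c))
    (by positivity) (by
      rw [← pow_mul]
      exact (pow_le_pow_left₀ (by norm_num) (by norm_num) _).trans
        (pow_le_pow_right₀ (by norm_num) (by omega))) (le_of_eq (by
      rw [show 33 * c = 32 * c + c by ring, pow_add, pow_succ, one_div, inv_pow 2 c]
      field_simp; norm_num)) (by
      have : (2 : ℝ) ^ 24 * S ≤ 2 ^ (32 * c) := by exact_mod_cast hc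
      rw [one_div, inv_pow, ← div_eq_mul_inv, div_mul_eq_mul_div, div_le_iff₀ (by positivity)]
      have : (0 : ℝ) ≤ S := by positivity
      linarith) rfl hW _ ph 0 1 t 0 0 h4 le_rfl (Nat.zero_le _) (Nat.zero_le _) h5 le_rfl le_rfl (by
      have b1 := mix (v := 1) (by positivity) (pot_nonneg G0 ph) zero_le_one
        (pot_ge G0 ph (Nat.zero_le _) G1) (by rwa [one_pow, div_le_one G0])
      rw [mul_one, div_le_iff₀ G0, mul_comm] at b1
      have b2 : (1 : ℝ) ≤ 2 ^ (7 * (33 * c) + 4) := one_le_pow₀ (by norm_num)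
      have b3 := mul_le_mul b2 (g0.trans b1) (by norm_num) (by positivity)
      unfold pv
      simp only [range_zero, sum_empty]
      push_cast
      linarith only [b3]) (by simp) (div_nonneg (pot_nonneg G0 ph) (by norm_num))
  refine a2.trans (Nat.cast_le.2 (growth_mono ω (Nat.cast_le (α := ℝ) |>.1 (a1.trans ?_))))
  have b1 : (1 : ℝ) ≤ S := by exact_mod_cast hS
  have b2 : (2 : ℝ) ^ (7 * (33 * c) + 4) * (3 / 2) ^ (7 * (33 * c) + 4) = 3 ^ (7 * (33 * c) + 4) := by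
    rw [← mul_pow]; norm_num
  push_cast
  rw [lenSum_gn, hG, ← b2]
  have b3 := mul_le_mul_of_nonneg_right b1 (show 0 ≤ (2 : ℝ) ^ (7 * (33 * c) + 4) *
    (3 / 2) ^ (7 * (33 * c) + 4) * (2 ^ K * gn ω K) by have := gn_pos (ω := ω) K; positivity)
  linarith only [b3]

theorem lower_all (h : NC ω) {K c S : ℕ} (hW : ∑ j ∈ range K, rt (gn ω j / gn ω K) ≤ S)
    (hS : 1 ≤ S) (hc : 2 ^ 24 * S ≤ 2 ^ (32 * c)) :
    Real.exp (2 ^ K / 4) ≤ growth (gens ω) (84000 * S * 3 ^ (7 * (33 * c) + 4) * lenSum ω K) := by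
  set m := 84000 * S * 3 ^ (7 * (33 * c) + 4) * lenSum ω K with hm
  obtain ⟨ω', h1, h2⟩ := exists_rich ω (2 * m + K)
  have h4 : ∀ j ≤ K, lenSum ω' j = lenSum ω j := fun j hj => by
    unfold lenSum; rw [ell_congr _ (fun i hi => h2 i (by omega))]
  have h3 := lower_rich h1 (K := K) (le_trans (le_of_eq (sum_congr rfl fun j hj => by
    unfold gn; rw [h4 j (mem_range.1 hj).le, h4 K le_rfl])) hW) hS hc
  rw [h4 K le_rfl] at h3
  exact h3.trans (by exact_mod_cast growth_transfer h h2 (by omega))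

theorem model_le (h : NC ω) {C n k s : ℕ} (hC : 84000 * 3 * 27 * (3 ^ 235 * (2 ^ 27) ^ 12) ≤ C) (h1 : lenSum ω k ≤ n) (h2 : n < lenSum ω (k + 1))
    (hs : ∑ i ∈ range (k + 1), rt (gn ω i / gn ω k) ≤ s) :
    model ω n ≤ growth (gens ω) (C * n * s ^ 13) := by
  have g0 : ∀ t, 0 < gn ω t := fun t => by have := gn_pos (ω := ω) t; linarith only [this]
  have hk : kap ω n = k + 1 := by
    have a1 := (kap_spec ω n k).1 h1
    have a2 := (kap_spec ω n (k + 1)).not.1 (by omega)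
    omega
  have s1 : 1 ≤ s := by
    have a1 := single_le_sum (f := fun i => rt (gn ω i / gn ω k))
      (fun i _ => rt_nonneg (div_pos (g0 i) (g0 k)).le) (self_mem_range_succ k)
    rw [div_self (g0 k).ne', rt, Real.one_rpow] at a1
    exact_mod_cast a1.trans hs
  have hW : ∑ j ∈ range (k + 3), rt (gn ω j / gn ω (k + 3)) ≤ (3 * s : ℕ) := by
    have a1 : ∀ i ≤ k + 3, rt (gn ω i / gn ω (k + 3)) ≤ 1 := fun i hi =>
      Real.rpow_le_one (div_pos (g0 i) (g0 _)).le ((div_le_one (g0 _)).2 (gn_mono hi)) (by norm_num)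
    have a2 : ∑ j ∈ range (k + 1), rt (gn ω j / gn ω (k + 3)) ≤ s :=
      le_trans (sum_le_sum fun j _ => Real.rpow_le_rpow (div_pos (g0 j) (g0 _)).le
        (div_le_div_of_nonneg_left (g0 j).le (g0 k) (gn_mono (by omega))) (by norm_num)) hs
    have a3 := a1 (k + 1) (by omega)
    have a4 := a1 (k + 1 + 1) (by omega)
    have a5 : (1 : ℝ) ≤ s := by exact_mod_cast s1
    rw [sum_range_succ, sum_range_succ]
    push_cast; linarith only [a2, a3, a4, a5]
  obtain ⟨l, c1, c2⟩ := exists_pow (2 ^ 24 * (3 * s)) (by positivity)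
  have a3 := lower_all h hW (by omega) (c := l / 32 + 1)
    (c1.trans (Nat.pow_le_pow_right (by norm_num) (by omega)))
  have a4 : 3 ^ (7 * (33 * (l / 32 + 1)) + 4) ≤ 3 ^ 235 * (2 ^ 27 * s) ^ 12 := by
    calc _ = 3 ^ 235 * (3 ^ 231) ^ (l / 32) := by rw [← pow_mul, ← pow_add]; congr 1; ring
      _ ≤ 3 ^ 235 * ((2 ^ 32) ^ 12) ^ (l / 32) :=
          Nat.mul_le_mul_left _ (Nat.pow_le_pow_left (by norm_num) _)
      _ ≤ 3 ^ 235 * (2 ^ l) ^ 12 := by
          rw [← pow_mul, ← pow_mul, ← pow_mul]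
          exact Nat.mul_le_mul_left _ (Nat.pow_le_pow_right (by norm_num) (by omega))
      _ ≤ _ := Nat.mul_le_mul_left _ (Nat.pow_le_pow_left (by omega) 12)
  have a5 : 84000 * (3 * s) * 3 ^ (7 * (33 * (l / 32 + 1)) + 4) * lenSum ω (k + 3) ≤
      C * n * s ^ 13 := by
    have b1 : lenSum ω (k + 3) ≤ 27 * n :=
      (lenSum_three_pow ω k 3).trans (Nat.mul_le_mul_left _ h1)
    rw [mul_pow] at a4
    generalize 3 ^ 235 = x at a4 hC
    generalize (2 ^ 27) ^ 12 = y at a4 hC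
    calc _ ≤ 84000 * (3 * s) * (x * (y * s ^ 12)) * (27 * n) :=
          Nat.mul_le_mul (Nat.mul_le_mul_left _ a4) b1
      _ = 84000 * 3 * 27 * (x * y) * (n * s ^ 13) := by ring
      _ ≤ C * (n * s ^ 13) := Nat.mul_le_mul_right _ hC
      _ = _ := by rw [mul_assoc]
  refine le_trans ?_ (growth_mono ω a5)
  have a6 : ((2 ^ (2 ^ (k + 1)) : ℕ) : ℝ) ≤ Real.exp (2 ^ (k + 3) / 4) := by
    have : ((2 ^ (2 ^ (k + 1)) : ℕ) : ℝ) = Real.exp (((2 ^ (k + 1) : ℕ) : ℝ) * Real.log 2) := by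
      rw [Real.exp_nat_mul, Real.exp_log (by norm_num)]; push_cast; rfl
    rw [this, Real.exp_le_exp]
    push_cast
    have b1 : (0 : ℝ) < 2 ^ k := by positivity
    have := mul_le_mul_of_nonneg_left Real.log_two_lt_d9.le b1.le
    rw [pow_add, pow_add]
    linarith only [b1, this]
  rw [model_eq, hk]
  exact (Nat.pow_le_pow_right (by norm_num) (Nat.sub_le _ _)).trans (by exact_mod_cast a6.trans a3)

end Pool.Agent.MP_fbbd83_al.Lc

end

-- part MP_fbbd83_al.Lc.UpLoc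
section

/-! The upper bound with a loss that depends on the growth of the normalised lengths. -/

namespace Pool.Agent.MP_fbbd83_al.Lc

open Pl St Finset

variable {ω : ℕ → Fin 3}

theorem growth_le_ratio {n K R : ℕ} (hK : n ≤ lenSum ω K) (hR : ∀ s, lenSum ω K ≤ R * ell ω K s) :
    growth (gens ω) n ≤ (6 * (R + 1) + 1) ^ (24 * 2 ^ K) := by
  classical
  obtain ⟨s, hs⟩ : ∃ s, ∀ t, ell ω K s ≤ ell ω K t := Finite.exists_min _
  have a1 := lenSum_eq ω K s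
  have a2 := ell_tri ω K (s + 1)
  have a3 := ell_tri ω K (s + 2)
  have a4 := hs (s + 1)
  have a5 := hs (s + 2)
  have a6 := hR s
  have R0 : 0 < R := Nat.pos_of_ne_zero fun e => by rw [e] at a6; have := ell_pos ω K s; omega
  have a7 := ell_pos ω K s
  obtain ⟨μ, hμ⟩ : ∃ μ, μ = min (ell ω K (s + 1)) (ell ω K (s + 2)) := ⟨_, rfl⟩
  have key : ∀ g, InBall ω n g → ∃ (w : Word) (l : List (Fin (R + 1) × Option _)),
      (∀ v, run ω w v = g v) ∧ dec (some none) (some (some s)) l = enc ω K 0 w ∧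
        l.length ≤ 24 * 2 ^ K := by
    rintro g ⟨w, hw, rfl⟩
    obtain ⟨m, r, c, h1⟩ := enc_cd ω s μ (by positivity) K 0 (red w) (alt_red w) (fun t ht => by
      have : t = s + 1 ∨ t = s + 2 := by clear * - ht; revert t s; decide
      rw [zero_add]
      rcases this with rfl | rfl <;> omega)
    obtain ⟨t, l, h2, h3⟩ := c.tokens (R := R) R0
    refine ⟨red w, t :: l, fun v => by rw [run_red, evP_apply], h2, ?_⟩
    rw [Q_zero, zero_add] at h1
    have b1 := length_eq_cnt (red w)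
    have b2 := length_red w
    have b3 : (0 : ℤ) < 2 ^ K := by positivity
    have b4 := mul_le_mul_of_nonneg_left
      (show (cntS (red w) : ℤ) + lenSum ω K - lenSum ω 0 ≤ 2 * lenSum ω K by omega) b3.le
    have b5 : (μ : ℤ) * m + 2 * (ell ω K s * r) ≤ 4 * (2 ^ K * lenSum ω K) + 4 * (μ * 2 ^ K) := by
      have : (0 : ℤ) ≤ μ := by positivity
      linarith only [h1, b4]
    have b6 : μ * m + 2 * (ell ω K s * r) ≤ 4 * (2 ^ K * lenSum ω K) + 4 * (μ * 2 ^ K) := by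
      exact_mod_cast b5
    have d4 : 0 < 2 ^ K := by positivity
    clear b3 b4 b5 h1
    generalize 2 ^ K = N at *
    have d1 : m ≤ 20 * N := by
      have := Nat.mul_le_mul_left N (show lenSum ω K ≤ 4 * μ by omega)
      exact Nat.le_of_mul_le_mul_left (c := μ) (by nlinarith only [b6, this]) (by omega)
    have d2 : r ≤ 3 * (R * N) := by
      have := Nat.mul_le_mul_left N (show 2 * μ ≤ lenSum ω K by omega)
      have := Nat.mul_le_mul_left N a6
      exact Nat.le_of_mul_le_mul_left (c := ell ω K s) (by nlinarith) (by omega)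
    have d3 : l.length ≤ 23 * N := by
      have := Nat.mul_le_mul_left R d1
      exact Nat.le_of_mul_le_mul_left (c := R) (by linarith only [h3, d2, this]) (by omega)
    simp only [List.length_cons]; omega
  choose! wd cd k1 k2 k3 using key
  rw [growth_eq]
  refine (ncard_le_of_code {g | InBall ω n g} cd (24 * 2 ^ K) (fun g hg g' hg' e => ?_) k3).trans
    (le_of_eq ?_)
  · have e1 : enc ω K 0 (wd g) = enc ω K 0 (wd g') := by rw [← k2 g hg, ← k2 g' hg', e]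
    have := (enc_inj ω K 0 (wd g) (wd g') [] [] (by simpa using e1)).1
    ext1 v
    rw [← k1 g hg, ← k1 g' hg']
    exact this v
  · simp only [Fintype.card_prod, Fintype.card_fin, Fintype.card_option, Nat.reduceAdd, zero_le, ne_eq, mul_eq_zero, OfNat.ofNat_ne_zero, Nat.pow_eq_zero, false_and, or_self, not_false_eq_true, pow_left_inj₀, Nat.add_right_cancel_iff]; ring

theorem exists_gap (s : Fin 3) (k : ℕ) : ∃ d ≤ k, gn ω k ≤ (3 + d) * en ω s k ∧
    ∀ i, k ≤ i + d → 2 * en ω s k ≤ gn ω i := by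
  have tri : ∀ t x, 2 * en ω x t ≤ gn ω t := fun t x => by
    unfold en gn
    rw [← mul_div_assoc]
    exact div_le_div_of_nonneg_right (by exact_mod_cast ell_tri ω t _) (by positivity)
  induction k with
  | zero =>
    refine ⟨0, le_rfl, by norm_num [gn, en, ell, lenSum_zero], fun i _ => ?_⟩
    exact (tri 0 s).trans (gn_mono (Nat.zero_le i))
  | succ k ih =>
    by_cases h : inact (ω k) = s
    · refine ⟨0, Nat.zero_le _, ?_, fun i hi => (tri _ s).trans (gn_mono hi)⟩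
      have := gn_three (ω := ω) k 1
      rw [en_hit h]; push_cast; linarith
    · obtain ⟨d, d1, d2, d3⟩ := ih
      refine ⟨d + 1, by omega, ?_, fun i hi => by rw [en_act h]; exact d3 i (by omega)⟩
      obtain ⟨x, x1, x2⟩ := (by decide : ∀ a b : Fin 3, ∃ x, x ≠ a ∧ x ≠ b) (inact (ω k)) s
      have a1 := gn_eq (ω := ω) k x1 x2 h
      have a2 := gn_eq (ω := ω) (k + 1) x1 x2 h
      have a3 : en ω (inact (ω k)) (k + 1) = gn ω k / 2 := en_hit rfl
      have a4 := tri k x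
      rw [en_act x1.symm, en_act h] at a2
      rw [en_act h]; push_cast; linarith only [d2, a2, a3, a4]

theorem ratio_le {k S : ℕ} (hs : ∑ i ∈ range (k + 1), rt (gn ω i / gn ω k) ≤ S) (s : Fin 3) :
    lenSum ω (k + 1) ≤ 2 * (S + 2) ^ 2 * ell ω (k + 1) s := by
  have g0 : ∀ t, 0 < gn ω t := fun t => by have := gn_pos (ω := ω) t; linarith
  obtain ⟨d, d1, d2, d3⟩ := exists_gap (ω := ω) s k
  have e0 : 0 < en ω s k := by
    unfold en; have : (0 : ℝ) < ell ω k s := by exact_mod_cast ell_pos ω k s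
    positivity
  obtain ⟨y, hy⟩ : ∃ y, y = √(en ω s k / gn ω k) := ⟨_, rfl⟩
  have y0 : 0 < y := by rw [hy]; exact Real.sqrt_pos.2 (div_pos e0 (g0 k))
  have y2 : y ^ 2 * gn ω k = en ω s k := by
    rw [hy, Real.sq_sqrt (div_pos e0 (g0 k)).le]; field_simp [(g0 k).ne']
  have y1 : y ≤ 1 := by
    rw [hy, Real.sqrt_le_one, div_le_one (g0 k)]; have := d3 k (by omega); linarith only [e0, this]
  have a1 : (d + 1 : ℝ) * y ≤ S := by
    refine le_trans ?_ ((sum_le_sum_of_subset_of_nonneg (s := Ico (k - d) (k + 1))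
      (fun i hi => mem_range.2 (mem_Ico.1 hi).2)
      fun i _ _ => rt_nonneg (div_pos (g0 i) (g0 k)).le).trans hs)
    have := card_nsmul_le_sum (Ico (k - d) (k + 1)) (fun i => rt (gn ω i / gn ω k)) y fun i hi => by
      refine le_of_pow_le_pow_left₀ (n := 260) (by norm_num) (rt_nonneg (div_pos (g0 i) (g0 k)).le) ?_
      rw [rt_pow (div_pos (g0 i) (g0 k)).le, le_div_iff₀ (g0 k)]
      have b1 := d3 i (by have := mem_Ico.1 hi; omega)
      have b2 := mul_le_mul_of_nonneg_right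
        (pow_le_pow_of_le_one y0.le y1 (show 2 ≤ 260 by norm_num)) (g0 k).le
      generalize y ^ 260 = x at *
      linarith only [e0, y2, b1, b2]
    rw [Nat.card_Ico, show k + 1 - (k - d) = d + 1 by omega, nsmul_eq_mul] at this
    exact_mod_cast this
  have a2 : 1 ≤ (3 + d) * y ^ 2 := by
    rw [← y2, ← mul_assoc] at d2
    exact le_of_mul_le_mul_right (by linarith only [d2]) (g0 k)
  have a3 : 1 ≤ (S + 2) * y := by nlinarith only [y0, a1, a2]
  have a4 : gn ω k ≤ (S + 2) ^ 2 * en ω s k := by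
    rw [← y2, ← mul_assoc, ← mul_pow]
    exact le_mul_of_one_le_left (g0 k).le (one_le_pow₀ a3)
  have a5 : lenSum ω k ≤ (S + 2) ^ 2 * ell ω k s := by
    unfold gn en at a4
    rw [← mul_div_assoc, div_le_div_iff_of_pos_right (by positivity)] at a4
    exact_mod_cast a4
  have a6 := lenSum_three ω k
  have a7 := Nat.mul_le_mul_left ((S + 2) ^ 2) (ell_two ω k s)
  linarith only [a5, a6, a7]

theorem le_model {C n k s : ℕ} (hC : 2 ^ 20 * 3 ≤ C) (h1 : lenSum ω k ≤ n)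
    (h2 : n < lenSum ω (k + 1)) (hs : ∑ i ∈ range (k + 1), rt (gn ω i / gn ω k) ≤ s) :
    growth (gens ω) n ≤ model ω (C * n * (Nat.log 2 s + 1) ^ 2) := by
  have h3 := Nat.lt_pow_succ_log_self (b := 2) (by norm_num) s
  have h0 := growth_le_ratio h2.le (ratio_le hs)
  have h9 := lenSum_three ω k
  generalize Nat.log 2 s = l at *
  generalize k + 1 = K at *
  obtain ⟨c, c1, c2⟩ := exists_pow (l + 1) (by omega)
  have h4 : lenSum ω (K + (c + 9)) ≤ C * n * (l + 1) ^ 2 := by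
    calc _ ≤ 3 ^ (c + 9) * lenSum ω K := lenSum_three_pow ω K _
      _ ≤ (2 ^ 2) ^ (c + 9) * (3 * n) :=
          Nat.mul_le_mul (Nat.pow_le_pow_left (by norm_num) _) (by omega)
      _ = (2 ^ c) ^ 2 * (2 ^ 18 * 3 * n) := by rw [← pow_mul]; ring
      _ ≤ (2 * (l + 1)) ^ 2 * (2 ^ 18 * 3 * n) :=
          Nat.mul_le_mul_right _ (Nat.pow_le_pow_left c2 2)
      _ = (2 ^ 20 * 3) * (n * (l + 1) ^ 2) := by ring
      _ ≤ C * (n * (l + 1) ^ 2) := Nat.mul_le_mul_right _ hC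
      _ = _ := by rw [mul_assoc]
  have h5 := (kap_spec ω _ _).1 h4
  rw [model_eq]
  have h6 := Nat.pow_le_pow_right (show 0 < 2 by norm_num) (Nat.succ_le_of_lt h5)
  have h7 : 0 < 2 ^ K := by positivity
  have h8 : (2 * l + 10) * (24 * 2 ^ K) ≤ 2 ^ kap ω (C * n * (l + 1) ^ 2) - 1 := by
    have e : 2 ^ (K + (c + 9)).succ = 1024 * (2 ^ c * 2 ^ K) := by rw [Nat.succ_eq_add_one]; ring
    have := Nat.mul_le_mul_right (2 ^ K) c1
    have e2 : (2 * l + 10) * (24 * 2 ^ K) ≤ 240 * ((l + 1) * 2 ^ K) := by nlinarith only [h7]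
    have e3 : 0 < (l + 1) * 2 ^ K := by positivity
    omega
  calc _ ≤ _ := h0
    _ ≤ (2 ^ (2 * l + 10)) ^ (24 * 2 ^ K) := Nat.pow_le_pow_left (by
        rw [show 2 ^ (2 * l + 10) = 256 * (2 ^ l.succ) ^ 2 by rw [Nat.succ_eq_add_one]; ring]
        nlinarith only [h3]) _
    _ = 2 ^ ((2 * l + 10) * (24 * 2 ^ K)) := by rw [← pow_mul]
    _ ≤ _ := Nat.pow_le_pow_right (by norm_num) h8

theorem sum_eq (k : ℕ) : ∑ i ∈ range (k + 1), rt (gn ω i / gn ω k) =
    ∑ i ∈ range (k + 1), ((2 ^ (k - i) * lenSum ω i : ℝ) / lenSum ω k) ^ (1 / 260 : ℝ) := by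
  refine sum_congr rfl fun i hi => ?_
  obtain ⟨d, rfl⟩ := Nat.exists_eq_add_of_le (Nat.lt_succ_iff.1 (mem_range.1 hi))
  unfold rt gn
  congr 1
  rw [Nat.add_sub_cancel_left, pow_add, div_div_div_eq]
  have : (0 : ℝ) < lenSum ω (i + d) := by
    have := lenSum_ge ω (i + d)
    have : 0 < 2 ^ (i + d) := by positivity
    exact_mod_cast (show 0 < lenSum ω (i + d) by omega)
  field_simp

end Pool.Agent.MP_fbbd83_al.Lc

end
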